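import Pool.Agent.Lib.OQ.Defs
import Pool.Agent.Lib.OT.Chk

/-!
# Three curves that meet all lines through the disc (MP_721d21): Spec

THEOREM.  Continuous `γ₁, γ₂, γ₃ : [0,1] → ℝ²` such that every line which meets the closed unit disc meets one of them have total
length at least `47 π / 40`.  Proof: note 5482 (method: note 5254 and `Lib/OQ`, with five directions `k π / 5`).

Modules: `Sgn` (`S_Sgn5`), `Geo` (`S_Geo3`), `Dir` (`S_Sgn5 → S_Geo3 → S_Cert → S_Dir3`), `Main` (`OQ.S_Var → S_Dir3 → S_Main3`),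
`Snd`, `T00 .. T37`, `Cert` (`S_Cert`).
-/

set_option autoImplicit false

namespace Pool.Agent.OT

open MeasureTheory Set Pool.Agent.OQ

noncomputable section

/-- The facts about the support values: `x (10 i + k)`, `i < 3`, `k < 10`, is the support value of the curve `i` in the
direction `θ + k π / 5`; the curve `c k` meets the line `pj (θ + k π / 5) = 1`. -/
structure Fct (x : ℕ → ℝ) (c : ℕ → ℕ) : Prop where
  conv : ∀ i < 3, ∀ k < 10,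
    0 ≤ 2 * x (10 * i + (k + 9) % 10) + 2 * x (10 * i + (k + 1) % 10) - (1 + √5) * x (10 * i + k)
  wid : ∀ i < 3, ∀ k < 5, 0 ≤ x (10 * i + k) + x (10 * i + k + 5)
  two : ∀ k < 5, 2 ≤ x k + x (k + 5) + x (k + 10) + x (k + 15) + x (k + 20) + x (k + 25)
  lt : ∀ k < 10, c k < 3
  cov : ∀ k < 10, 1 ≤ x (10 * c k + k)
  ovl : ∀ k < 5, c k ≠ c (k + 5) →
    0 ≤ x (10 * c (k + 5) + k) + x (10 * c k + k + 5) ∨
    (0 ≤ x (10 * c (k + 5) + k) + x (10 * (3 - c k - c (k + 5)) + k + 5) ∧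
      0 ≤ x (10 * (3 - c k - c (k + 5)) + k) + x (10 * c k + k + 5))

/-- The part of the curve `i` of the linear form. -/
def gg (x : ℕ → ℝ) (i s : ℕ) : ℝ :=
  2 * ∑ k ∈ Finset.range 5, (x (10 * i + k) + x (10 * i + k + 5)) - (1 + √5) * (x (10 * i + s) + x (10 * i + s + 5))

/-- **Cert.** (helper74) The computer part. -/
def S_Cert : Prop := ∀ (x : ℕ → ℝ) (c : ℕ → ℕ), Fct x c → ∀ s1 < 5, ∀ s2 < 5,
  47 / 4 ≤ gg x 0 0 + gg x 1 s1 + gg x 2 s2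

/-- **Sgn5.** PROOF.  `p k = pj (θ + k π / 5) v`, `φ = (1 + √5)/2 = 2 cos (π / 5)`, `p (k+1) = φ p k - p (k-1)`, `p 5 = - p 0`.
There is `m < 5` with `p m ≥ 0 ≥ p (m+1)` or `p m ≤ 0 ≤ p (m+1)`.  First case, `c = p m`, `d = - p (m+1)`: `p (m-1) = φ c + d`,
`p (m-2) = φ (c + d)`, `p (m-3) = c + φ d`, `p (m-4) = d`, all `≥ 0`; the sum of the five absolute values is
`(2 + 2 φ)(c + d) = 2 φ p (m-2)`; `s = m - 2` modulo 5. -/
def S_Sgn5 : Prop := ∀ (θ : ℝ) (v : E2), ∃ s : ℕ, s < 5 ∧ ∑ k ∈ Finset.range 5, |pj (θ + k * (Real.pi / 5)) v| ≤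
  (1 + √5) * |pj (θ + s * (Real.pi / 5)) v|

/-- **Geo3.** PROOF.  `conv`: `h(θ - δ) + h(θ + δ) ≥ 2 cos δ h(θ)`, `δ = π / 5`, `2 cos δ = (1 + √5)/2` (take the point where
`h θ` is attained; indices modulo 10: `h` is `2π`-periodic).  `wid`: `neg_sp_le`.  `c k`: a curve which meets `pj = 1` in the
direction `k`.  `ovl`: `i = c k`, `j = c (k+5)`, `l` the third curve; the projection of `g j` in the direction `k` contains `-1`, that
of `g i` contains `1`.  If `h_j(k) < - h_i(k+5)`, all `p` with `h_j(k) < p < - h_i(k+5)` are in `[-1,1]` and in the projection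
of `g l`, so `- h_l(k+5) ≤ h_j(k)` and `- h_i(k+5) ≤ h_l(k)`.  `two`: from `cov`, `wid`, `ovl`. -/
def S_Geo3 : Prop := ∀ g : ℕ → ℝ → E2, (∀ i < 3, ContinuousOn (g i) (Icc 0 1)) →
  (∀ θ p : ℝ, |p| ≤ 1 → ∃ b < 3, ∃ t ∈ Icc (0 : ℝ) 1, pj θ (g b t) = p) → ∀ θ : ℝ,
    ∃ c : ℕ → ℕ, Fct (fun j => sp (g (j / 10)) (θ + (j % 10 : ℕ) * (Real.pi / 5))) c

/-- The lower bound of the variation of the projection of the curve `γ` in the direction `θ`. -/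
def lw (γ : ℝ → E2) (θ : ℝ) : ℝ := 2 * (sp γ θ + sp γ (θ + Real.pi)) - |pj θ (γ 1 - γ 0)|

/-- **Dir3.** PROOF from `S_Sgn5`, `S_Geo3`, `S_Cert` (compare `OQ.dirP`): `|pj θ (γ 1 - γ 0)| ≤ sp γ θ + sp γ (θ + π)`, `S_Sgn5` gives
`s 0, s 1, s 2`; everything is `π`-periodic in `θ`, so replace `θ` by `θ + s 0 π / 5`: `s 0 = 0`, `s 1`, `s 2` modulo 5. -/
def S_Dir3 : Prop := ∀ g : ℕ → ℝ → E2, (∀ i < 3, ContinuousOn (g i) (Icc 0 1)) →
  (∀ θ p : ℝ, |p| ≤ 1 → ∃ b < 3, ∃ t ∈ Icc (0 : ℝ) 1, pj θ (g b t) = p) → ∀ θ : ℝ,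
    47 / 4 ≤ ∑ k ∈ Finset.range 5, (lw (g 0) (θ + k * (Real.pi / 5)) + lw (g 1) (θ + k * (Real.pi / 5)) +
      lw (g 2) (θ + k * (Real.pi / 5)))

/-- **Main3.** PROOF from `OQ.S_Var` and `S_Dir3`: compare `OQ/Main.lean` (average over the rotations). -/
def S_Main3 : Prop := ∀ γ₁ γ₂ γ₃ : ℝ → EuclideanSpace ℝ (Fin 2),
  ContinuousOn γ₁ (Icc 0 1) → ContinuousOn γ₂ (Icc 0 1) → ContinuousOn γ₃ (Icc 0 1) →
  (∀ l : AffineSubspace ℝ (EuclideanSpace ℝ (Fin 2)), Module.finrank ℝ l.direction = 1 →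
    (∃ x ∈ l, ‖x‖ ≤ 1) → ∃ t ∈ Icc (0 : ℝ) 1, γ₁ t ∈ l ∨ γ₂ t ∈ l ∨ γ₃ t ∈ l) →
  ENNReal.ofReal (47 * Real.pi / 40) ≤ eVariationOn γ₁ (Icc 0 1) + eVariationOn γ₂ (Icc 0 1) + eVariationOn γ₃ (Icc 0 1)

end

end Pool.Agent.OT
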