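import Pool.Agent.Lib.OT.Defs
import Pool.Agent.Lib.OT.Spec

/-!
# Three curves that meet all lines through the disc (MP_721d21): from the certificates to the claim
-/

set_option autoImplicit false

namespace Pool.Agent.OT3

noncomputable section

/-- The vector of the variables. -/
def xv (H : Fin 3 → ℕ → ℝ) (j : ℕ) : ℝ :=
  if h : j / 10 < 3 then H ⟨j / 10, h⟩ (j % 10) else 0

theorem xv_eq (H : Fin 3 → ℕ → ℝ) (i : Fin 3) (k : ℕ) (hk : k < 10) :
    xv H (10 * i.val + k) = H i k := by
  have h1 : (10 * i.val + k) / 10 = i.val := by omega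
  have h2 : (10 * i.val + k) % 10 = k := by omega
  unfold xv
  rw [dif_pos (by rw [h1]; exact i.isLt)]
  congr 1
  · exact Fin.ext h1

theorem per_mod {H : Fin 3 → ℕ → ℝ} (hp : ∀ i k, H i (k + 10) = H i k) (i : Fin 3) (k : ℕ) :
    H i (k % 10) = H i k := by
  have h : Function.Periodic (H i) 10 := hp i
  exact h.map_mod_nat k

theorem fct_bridge {H : Fin 3 → ℕ → ℝ} {c : ℕ → Fin 3} (h : Fct H c) :
    Pool.Agent.OT.Fct (xv H) (fun k => (c k).val) := by
  have hx : ∀ (i : Fin 3) (k : ℕ), k < 10 → xv H (10 * i.val + k) = H i k := fun i k hk => xv_eq H i k hk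
  refine ⟨?_, ?_, ?_, ?_, ?_, ?_⟩
  · intro i hi k hk
    have e1 := hx ⟨i, hi⟩ ((k + 9) % 10) (Nat.mod_lt _ (by norm_num))
    have e2 := hx ⟨i, hi⟩ ((k + 1) % 10) (Nat.mod_lt _ (by norm_num))
    have e3 := hx ⟨i, hi⟩ k hk
    simp only at e1 e2 e3
    rw [e1, e2, e3, per_mod h.per, per_mod h.per]
    have h1 := h.conv ⟨i, hi⟩ (k + 9)
    have h2 := h.per ⟨i, hi⟩ k
    have h3 := h.per ⟨i, hi⟩ (k + 1)
    rw [show k + 9 + 1 = k + 10 by ring, show k + 9 + 2 = k + 1 + 10 by ring, h2, h3] at h1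
    linarith
  · intro i hi k hk
    have e1 := hx ⟨i, hi⟩ k (by omega)
    have e2 := hx ⟨i, hi⟩ (k + 5) (by omega)
    simp only at e1 e2
    rw [e1, show 10 * i + k + 5 = 10 * i + (k + 5) by ring, e2]
    exact h.wid ⟨i, hi⟩ k
  · intro k hk
    have e0 := hx 0 k (by omega)
    have e1 := hx 0 (k + 5) (by omega)
    have e2 := hx 1 k (by omega)
    have e3 := hx 1 (k + 5) (by omega)
    have e4 := hx 2 k (by omega)
    have e5 := hx 2 (k + 5) (by omega)
    simp only [Fin.val_zero, Fin.val_one, Fin.val_two] at e0 e1 e2 e3 e4 e5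
    rw [show 10 * 0 + k = k by ring] at e0
    rw [show 10 * 0 + (k + 5) = k + 5 by ring] at e1
    rw [show 10 * 1 + k = k + 10 by ring] at e2
    rw [show 10 * 1 + (k + 5) = k + 15 by ring] at e3
    rw [show 10 * 2 + k = k + 20 by ring] at e4
    rw [show 10 * 2 + (k + 5) = k + 25 by ring] at e5
    rw [e0, e1, e2, e3, e4, e5]
    linarith [h.cov k]
  · intro k _
    exact (c k).isLt
  · intro k hk
    rw [hx (c k) k hk]
    exact h.tan k
  · intro k hk hne
    have hne' : c k ≠ c (k + 5) := fun e => hne (congrArg Fin.val e)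
    have hl : 3 - (c k).val - (c (k + 5)).val < 3 := by
      have := (c k).isLt
      have := (c (k + 5)).isLt
      have : (c k).val ≠ (c (k + 5)).val := hne
      omega
    have e1 := hx (c (k + 5)) k (by omega)
    have e2 := hx (c k) (k + 5) (by omega)
    have e3 := hx ⟨_, hl⟩ k (by omega)
    have e4 := hx ⟨_, hl⟩ (k + 5) (by omega)
    simp only at e1 e2 e3 e4
    rw [show 10 * (c k).val + k + 5 = 10 * (c k).val + (k + 5) by ring,
      show 10 * (3 - (c k).val - (c (k + 5)).val) + k + 5 =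
        10 * (3 - (c k).val - (c (k + 5)).val) + (k + 5) by ring, e1, e2, e3, e4]
    apply h.ovl k hne'
    · intro e
      have e' := congrArg Fin.val e
      simp only at e'
      have := (c k).isLt
      have := (c (k + 5)).isLt
      have : (c k).val ≠ (c (k + 5)).val := hne
      omega
    · intro e
      have e' := congrArg Fin.val e
      simp only at e'
      have := (c k).isLt
      have := (c (k + 5)).isLt
      have : (c k).val ≠ (c (k + 5)).val := hne
      omega

theorem bridge (hC : Pool.Agent.OT.S_Cert) : S_Cert := by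
  intro H c h s₁ s₂ h1 h2
  have hc := hC (xv H) (fun k => (c k).val) (fct_bridge h) s₁ h1 s₂ h2
  have hx : ∀ (i : Fin 3) (k : ℕ), k < 10 → xv H (10 * i.val + k) = H i k := fun i k hk => xv_eq H i k hk
  have g : ∀ (i : Fin 3) (s : ℕ), s < 5 → Pool.Agent.OT.gg (xv H) i.val s =
      2 * ∑ k ∈ Finset.range 5, (H i k + H i (k + 5)) - (1 + √5) * (H i s + H i (s + 5)) := by
    intro i s hs
    unfold Pool.Agent.OT.gg
    rw [hx i s (by omega), show 10 * i.val + s + 5 = 10 * i.val + (s + 5) by ring, hx i (s + 5) (by omega)]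
    congr 2
    refine Finset.sum_congr rfl fun k hk => ?_
    have hk' : k < 5 := Finset.mem_range.1 hk
    rw [hx i k (by omega), show 10 * i.val + k + 5 = 10 * i.val + (k + 5) by ring, hx i (k + 5) (by omega)]
  have g0 := g 0 0 (by norm_num)
  have g1 := g 1 s₁ h1
  have g2 := g 2 s₂ h2
  simp only [Fin.val_zero, Fin.val_one, Fin.val_two, zero_add] at g0 g1 g2
  rw [g0, g1, g2] at hc
  have e : ∑ k ∈ Finset.range 5, ((H 0 k + H 0 (k + 5)) + (H 1 k + H 1 (k + 5)) + (H 2 k + H 2 (k + 5))) =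
      ∑ k ∈ Finset.range 5, (H 0 k + H 0 (k + 5)) + ∑ k ∈ Finset.range 5, (H 1 k + H 1 (k + 5)) +
      ∑ k ∈ Finset.range 5, (H 2 k + H 2 (k + 5)) := by
    rw [← Finset.sum_add_distrib, ← Finset.sum_add_distrib]
  rw [e]
  linarith

end

end Pool.Agent.OT3
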