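import Pool.Agent.Lib.OT.Defs

/-!
# Three curves that meet all lines through the disc (MP_721d21): five projections of a vector
-/

set_option autoImplicit false

namespace Pool.Agent.OT3

open Pool.Agent.OQ MeasureTheory Set

namespace SgnM

theorem cos_step (θ : ℝ) : Real.cos (θ + 2 * (Real.pi / 5)) =
    (1 + √5) / 2 * Real.cos (θ + Real.pi / 5) - Real.cos θ := by
  have h := Real.cos_add_cos (θ + 2 * (Real.pi / 5)) θ
  rw [show (θ + 2 * (Real.pi / 5) + θ) / 2 = θ + Real.pi / 5 by ring,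
    show (θ + 2 * (Real.pi / 5) - θ) / 2 = Real.pi / 5 by ring, Real.cos_pi_div_five] at h
  linarith

theorem sin_step (θ : ℝ) : Real.sin (θ + 2 * (Real.pi / 5)) =
    (1 + √5) / 2 * Real.sin (θ + Real.pi / 5) - Real.sin θ := by
  have h1 : Real.sin (θ + Real.pi / 5 + Real.pi / 5) + Real.sin (θ + Real.pi / 5 - Real.pi / 5) =
      2 * Real.sin (θ + Real.pi / 5) * Real.cos (Real.pi / 5) := by
    rw [Real.sin_add (θ + Real.pi / 5), Real.sin_sub (θ + Real.pi / 5)]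
    ring
  rw [show θ + Real.pi / 5 + Real.pi / 5 = θ + 2 * (Real.pi / 5) by ring,
    show θ + Real.pi / 5 - Real.pi / 5 = θ by ring, Real.cos_pi_div_five] at h1
  linarith

theorem pj_step (θ : ℝ) (x : E2) : pj (θ + 2 * (Real.pi / 5)) x =
    (1 + √5) / 2 * pj (θ + Real.pi / 5) x - pj θ x := by
  simp only [pj]
  rw [cos_step, sin_step]
  ring

theorem key5 (q : ℕ → ℝ) (hq : ∀ k, q (k + 2) = (1 + √5) / 2 * q (k + 1) - q k)
    (h : q 0 * q 1 ≤ 0) :
    |q 0| + |q 1| + |q 2| + |q 3| + |q 4| ≤ (1 + √5) * |q 3| := by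
  have h5 : √5 * √5 = (5 : ℝ) := Real.mul_self_sqrt (by norm_num)
  have h0 : 0 ≤ √5 := Real.sqrt_nonneg 5
  obtain ⟨φ, hφ⟩ : ∃ φ : ℝ, φ = (1 + √5) / 2 := ⟨_, rfl⟩
  have hφ2 : φ * φ = φ + 1 := by rw [hφ]; linear_combination h5 / 4
  have hφ0 : 0 ≤ φ := by rw [hφ]; linarith
  have hs : 1 + √5 = 2 * φ := by rw [hφ]; ring
  rw [hs]
  simp only [← hφ] at hq
  have e2 : q 2 = φ * q 1 - q 0 := hq 0
  have e3 : q 3 = φ * (q 1 - q 0) := by
    have := hq 1
    rw [this, e2]; linear_combination (q 1) * hφ2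
  have e4 : q 4 = q 1 - φ * q 0 := by
    have := hq 2
    rw [this, e3, e2]; linear_combination (q 1 - q 0) * hφ2
  rcases mul_nonpos_iff.1 h with ⟨a, b⟩ | ⟨a, b⟩
  · have p0 : 0 ≤ φ * q 0 := mul_nonneg hφ0 a
    have p1 : φ * q 1 ≤ 0 := mul_nonpos_of_nonneg_of_nonpos hφ0 b
    have n3 : q 3 ≤ 0 := by rw [e3]; linarith
    rw [abs_of_nonneg a, abs_of_nonpos b, abs_of_nonpos (show q 2 ≤ 0 by linarith),
      abs_of_nonpos n3, abs_of_nonpos (show q 4 ≤ 0 by linarith), e2, e3, e4]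
    have : 2 * φ * -(φ * (q 1 - q 0)) = 2 * (φ + 1) * (q 0 - q 1) := by
      linear_combination 2 * (q 0 - q 1) * hφ2
    rw [this]
    nlinarith
  · have p0 : φ * q 0 ≤ 0 := mul_nonpos_of_nonneg_of_nonpos hφ0 a
    have p1 : 0 ≤ φ * q 1 := mul_nonneg hφ0 b
    have n3 : 0 ≤ q 3 := by rw [e3]; linarith
    rw [abs_of_nonpos a, abs_of_nonneg b, abs_of_nonneg (show 0 ≤ q 2 by linarith),
      abs_of_nonneg n3, abs_of_nonneg (show 0 ≤ q 4 by linarith), e2, e3, e4]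
    have : 2 * φ * (φ * (q 1 - q 0)) = 2 * (φ + 1) * (q 1 - q 0) := by
      linear_combination 2 * (q 1 - q 0) * hφ2
    rw [this]
    nlinarith

end SgnM

open SgnM in
theorem sgnP : S_Sgn := by
  intro θ v
  have hp : ∀ k : ℕ, pj (θ + (k + 2 : ℕ) * (Real.pi / 5)) v =
      (1 + √5) / 2 * pj (θ + (k + 1 : ℕ) * (Real.pi / 5)) v - pj (θ + k * (Real.pi / 5)) v := by
    intro k
    have := pj_step (θ + k * (Real.pi / 5)) v
    rw [show θ + (k + 2 : ℕ) * (Real.pi / 5) = θ + k * (Real.pi / 5) + 2 * (Real.pi / 5) by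
      push_cast; ring, show θ + (k + 1 : ℕ) * (Real.pi / 5) = θ + k * (Real.pi / 5) + Real.pi / 5 by
      push_cast; ring]
    exact this
  have h6 : ∀ k : ℕ, pj (θ + (k + 5 : ℕ) * (Real.pi / 5)) v = -pj (θ + k * (Real.pi / 5)) v := by
    intro k
    rw [← pj_add_pi]
    congr 1
    push_cast
    ring
  generalize hP : (fun k : ℕ => pj (θ + (k : ℝ) * (Real.pi / 5)) v) = p at *
  have hpk : ∀ k : ℕ, pj (θ + (k : ℝ) * (Real.pi / 5)) v = p k := fun k => by rw [← hP]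
  simp only [hpk] at hp h6 ⊢
  have ha : ∀ k, |p (k + 5)| = |p k| := fun k => by rw [h6, abs_neg]
  have hm : ∀ m, p m * p (m + 1) ≤ 0 →
      |p m| + |p (m + 1)| + |p (m + 2)| + |p (m + 3)| + |p (m + 4)| ≤ (1 + √5) * |p (m + 3)| := by
    intro m h
    exact key5 (fun k => p (m + k)) (fun k => hp (m + k)) h
  have a0 := ha 0
  have a1 := ha 1
  have a2 := ha 2
  have a3 := ha 3
  norm_num at a0 a1 a2 a3
  simp only [Finset.sum_range_succ, Finset.sum_range_zero, zero_add]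
  by_cases c0 : p 0 * p 1 ≤ 0
  · exact ⟨3, by norm_num, by have := hm 0 c0; norm_num at this ⊢; linarith⟩
  by_cases c1 : p 1 * p 2 ≤ 0
  · exact ⟨4, by norm_num, by have := hm 1 c1; norm_num at this ⊢; linarith⟩
  by_cases c2 : p 2 * p 3 ≤ 0
  · exact ⟨0, by norm_num, by have := hm 2 c2; norm_num at this ⊢; rw [a0] at this; linarith⟩
  by_cases c3 : p 3 * p 4 ≤ 0
  · exact ⟨1, by norm_num, by have := hm 3 c3; norm_num at this ⊢; rw [a0, a1] at this; linarith⟩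
  by_cases c4 : p 4 * p 5 ≤ 0
  · exact ⟨2, by norm_num, by
      have := hm 4 c4; norm_num at this ⊢; rw [a0, a1, a2, a3] at this; linarith⟩
  exfalso
  have e5 : p 5 = -p 0 := h6 0
  push Not at c0 c1 c2 c3 c4
  have hall : 0 < (p 0 * p 1) * (p 1 * p 2) * (p 2 * p 3) * (p 3 * p 4) * (p 4 * p 5) := by
    positivity
  have : (p 0 * p 1) * (p 1 * p 2) * (p 2 * p 3) * (p 3 * p 4) * (p 4 * p 5) =
      -(p 0 * p 1 * p 2 * p 3 * p 4) ^ 2 := by
    rw [e5]; ring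
  rw [this] at hall
  nlinarith [sq_nonneg (p 0 * p 1 * p 2 * p 3 * p 4)]

end Pool.Agent.OT3
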