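import Pool.Agent.Lib.OT.Snd2

/-!
# Three curves that meet all lines through the disc (MP_721d21): the swap of the curves 1 and 2
-/

set_option autoImplicit false

namespace Pool.Agent.OT

/-- The swap of `1` and `2`. -/
def sc (i : ℕ) : ℕ := if i = 1 then 2 else if i = 2 then 1 else i

/-- The variables after the swap. -/
def sw (x : ℕ → ℝ) (j : ℕ) : ℝ := x (10 * sc (j / 10) + j % 10)

theorem sc_lt {i : ℕ} (h : i < 3) : sc i < 3 := by unfold sc; split_ifs <;> omega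

theorem sc_sc (i : ℕ) : sc (sc i) = i := by unfold sc; split_ifs <;> omega

theorem sw_eq (x : ℕ → ℝ) (i r : ℕ) (hr : r < 10) : sw x (10 * i + r) = x (10 * sc i + r) := by
  unfold sw
  rw [show (10 * i + r) / 10 = i by omega, show (10 * i + r) % 10 = r by omega]

theorem sw_eq5 (x : ℕ → ℝ) (i r : ℕ) (hr : r < 5) : sw x (10 * i + r + 5) = x (10 * sc i + r + 5) := by
  rw [add_assoc, sw_eq x i (r + 5) (by omega), add_assoc]

theorem swp {x : ℕ → ℝ} {c : ℕ → ℕ} (hF : Fct x c) : Fct (sw x) (fun k => sc (c k)) where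
  conv := by
    intro i hi k hk
    rw [sw_eq x i _ (by omega), sw_eq x i _ (by omega), sw_eq x i k hk]
    exact hF.conv (sc i) (sc_lt hi) k hk
  wid := by
    intro i hi k hk
    rw [sw_eq x i k (by omega), sw_eq5 x i k hk]
    exact hF.wid (sc i) (sc_lt hi) k hk
  two := by
    intro k hk
    have h := hF.two k hk
    have a0 := sw_eq x 0 k (by omega)
    have a1 := sw_eq x 0 (k + 5) (by omega)
    have a2 := sw_eq x 1 k (by omega)
    have a3 := sw_eq x 1 (k + 5) (by omega)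
    have a4 := sw_eq x 2 k (by omega)
    have a5 := sw_eq x 2 (k + 5) (by omega)
    have s0 : sc 0 = 0 := rfl
    have s1 : sc 1 = 2 := rfl
    have s2 : sc 2 = 1 := rfl
    rw [s0] at a0 a1
    rw [s1] at a2 a3
    rw [s2] at a4 a5
    have e0 : 10 * 0 + k = k := by omega
    have e1 : 10 * 0 + (k + 5) = k + 5 := by omega
    have e2 : 10 * 1 + k = k + 10 := by omega
    have e3 : 10 * 1 + (k + 5) = k + 15 := by omega
    have e4 : 10 * 2 + k = k + 20 := by omega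
    have e5 : 10 * 2 + (k + 5) = k + 25 := by omega
    rw [e0] at a0
    rw [e1] at a1
    rw [e2, e4] at a2
    rw [e3, e5] at a3
    rw [e4, e2] at a4
    rw [e5, e3] at a5
    rw [a0, a1, a2, a3, a4, a5]
    linarith
  lt := fun k hk => sc_lt (hF.lt k hk)
  cov := by
    intro k hk
    rw [sw_eq x _ k hk, sc_sc]
    exact hF.cov k hk
  ovl := by
    intro k hk hne
    have h1 := hF.lt k (by omega)
    have h2 := hF.lt (k + 5) (by omega)
    have hne' : c k ≠ c (k + 5) := fun e => hne (by rw [e])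
    have h3 : 3 - sc (c k) - sc (c (k + 5)) = sc (3 - c k - c (k + 5)) := by
      unfold sc; split_ifs <;> omega
    simp only [h3]
    rw [sw_eq x _ k (by omega), sw_eq5 x _ k hk, sw_eq5 x _ k hk, sw_eq x _ k (by omega), sc_sc, sc_sc, sc_sc]
    exact hF.ovl k hk hne'

theorem gg_sw (x : ℕ → ℝ) (i s : ℕ) (hs : s < 5) : gg (sw x) i s = gg x (sc i) s := by
  unfold gg
  rw [sw_eq x i s (by omega), sw_eq5 x i s hs]
  congr 2
  refine Finset.sum_congr rfl fun k hk => ?_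
  have := Finset.mem_range.1 hk
  rw [sw_eq x i k (by omega), sw_eq5 x i k this]

/-- `S_Cert` from the cases `c 3 = 0, c 8 = 0`; `c 3 = 0, c 8 = 1`; `c 3 = 1`. -/
theorem cert_of (h : ∀ (x : ℕ → ℝ) (c : ℕ → ℕ), Fct x c → (c 3 = 0 ∧ c 8 = 0) ∨ (c 3 = 0 ∧ c 8 = 1) ∨ c 3 = 1 →
    ∀ s1 < 5, ∀ s2 < 5, 47 / 4 ≤ gg x 0 0 + gg x 1 s1 + gg x 2 s2) : S_Cert := by
  intro x c hF s1 h1 s2 h2
  have h3 := hF.lt 3 (by norm_num)
  have h8 := hF.lt 8 (by norm_num)
  by_cases hg : (c 3 = 0 ∧ c 8 = 0) ∨ (c 3 = 0 ∧ c 8 = 1) ∨ c 3 = 1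
  · exact h x c hF hg s1 h1 s2 h2
  · have hg2 : (sc (c 3) = 0 ∧ sc (c 8) = 0) ∨ (sc (c 3) = 0 ∧ sc (c 8) = 1) ∨ sc (c 3) = 1 := by
      unfold sc; split_ifs <;> omega
    have k := h (sw x) (fun k => sc (c k)) (swp hF) hg2 s2 h2 s1 h1
    rw [gg_sw x 0 0 (by norm_num), gg_sw x 1 s2 h2, gg_sw x 2 s1 h1] at k
    have s0 : sc 0 = 0 := rfl
    have e1 : sc 1 = 2 := rfl
    have e2 : sc 2 = 1 := rfl
    rw [s0, e1, e2] at k
    linarith

/-! ### Combination of checks -/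

theorem ck_cn {k s1 s2 m m0 m1 m2 : ℕ} {t0 t1 t2 : Tr} (hk : Nat.ble k 9 = true)
    (e0 : Nat.lor m (Nat.pow 2 (50 + 3 * k)) = m0) (e1 : Nat.lor m (Nat.pow 2 (51 + 3 * k)) = m1)
    (e2 : Nat.lor m (Nat.pow 2 (52 + 3 * k)) = m2) (h0 : check t0 s1 s2 m0 = true) (h1 : check t1 s1 s2 m1 = true)
    (h2 : check t2 s1 s2 m2 = true) : check (Tr.cn k t0 t1 t2) s1 s2 m = true := by
  rw [check, hk, e0, e1, e2, h0, h1, h2]; rfl

theorem ck_bn {k i j s1 s2 m m0 m1 : ℕ} {t0 t1 : Tr}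
    (hk : and (and (and (Nat.ble k 4) (Nat.ble i 2)) (and (Nat.ble j 2) (not (Nat.beq i j))))
      (and (bt m (50 + 3 * k + i)) (bt m (65 + 3 * k + j))) = true)
    (e0 : Nat.lor m (Nat.pow 2 (80 + 9 * k + 3 * j + i)) = m0)
    (e1 : Nat.lor (Nat.lor m (Nat.pow 2 (80 + 9 * k + 3 * j + (3 - i - j))))
            (Nat.pow 2 (80 + 9 * k + 3 * (3 - i - j) + i)) = m1)
    (h0 : check t0 s1 s2 m0 = true) (h1 : check t1 s1 s2 m1 = true) :
    check (Tr.bn k i j t0 t1) s1 s2 m = true := by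
  rw [Bool.and_eq_true] at hk
  rw [check, hk.1, hk.2, e0, e1, h0, h1]; rfl

theorem ck_s1 {s1 s2 m : ℕ} {t0 t1 t2 t3 t4 : Tr} (h0 : check t0 0 s2 m = true) (h1 : check t1 1 s2 m = true)
    (h2 : check t2 2 s2 m = true) (h3 : check t3 3 s2 m = true) (h4 : check t4 4 s2 m = true) :
    check (Tr.sn 1 t0 t1 t2 t3 t4) s1 s2 m = true := by
  rw [check, h0, h1, h2, h3, h4]; rfl

theorem ck_s2 {s1 s2 m : ℕ} {t0 t1 t2 t3 t4 : Tr} (h0 : check t0 s1 0 m = true) (h1 : check t1 s1 1 m = true)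
    (h2 : check t2 s1 2 m = true) (h3 : check t3 s1 3 m = true) (h4 : check t4 s1 4 m = true) :
    check (Tr.sn 2 t0 t1 t2 t3 t4) s1 s2 m = true := by
  rw [check, h0, h1, h2, h3, h4]; rfl

end Pool.Agent.OT
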