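import Pool.Agent.Lib.OT.T00
import Pool.Agent.Lib.OT.T01
import Pool.Agent.Lib.OT.T02
import Pool.Agent.Lib.OT.T03
import Pool.Agent.Lib.OT.T04
import Pool.Agent.Lib.OT.T05
import Pool.Agent.Lib.OT.T06
import Pool.Agent.Lib.OT.T07
import Pool.Agent.Lib.OT.T08
import Pool.Agent.Lib.OT.T09
import Pool.Agent.Lib.OT.T10
import Pool.Agent.Lib.OT.T11
import Pool.Agent.Lib.OT.T12
import Pool.Agent.Lib.OT.T13
import Pool.Agent.Lib.OT.Swp

/-!
# Three curves that meet all lines through the disc (MP_721d21): the combination of the certificates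
-/

set_option autoImplicit false

namespace Pool.Agent.OT

def n0 : Tr := Tr.sn 1 t1 t2 t3 t4 t5

theorem hn0 : check n0 5 5 1298074214671486416582233454280703 = true :=
  ck_s1 ht1 ht2 ht3 ht4 ht5

def n1 : Tr := Tr.cn 9 t6 t7 t8

theorem hn1 : check n1 5 5 15576890575642267006727116787023871 = true :=
  ck_cn rfl (by decide +kernel) (by decide +kernel) (by decide +kernel) ht6 ht7 ht8

def n2 : Tr := Tr.cn 5 t10 t11 t12

theorem hn2 : check n2 5 5 15576890575642280841785172069187583 = true :=
  ck_cn rfl (by decide +kernel) (by decide +kernel) (by decide +kernel) ht10 ht11 ht12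

def n3 : Tr := Tr.cn 4 n1 t9 n2

theorem hn3 : check n3 5 5 15576890575642262395041098359635967 = true :=
  ck_cn rfl (by decide +kernel) (by decide +kernel) (by decide +kernel) hn1 ht9 hn2

def n4 : Tr := Tr.bn 3 0 1 n0 n3

theorem hn4 : check n4 5 5 37779509449609371975679 = true :=
  ck_bn (by decide +kernel) (by decide +kernel) (by decide +kernel) hn0 hn3

def n5 : Tr := Tr.bn 4 0 1 t14 t15

theorem hn5 : check n5 5 5 302237220637080234754047 = true :=
  ck_bn (by decide +kernel) (by decide +kernel) (by decide +kernel) ht14 ht15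

def n6 : Tr := Tr.sn 2 t16 t17 t18 t19 t20

theorem hn6 : check n6 5 5 5316911983140267960290768978649808895 = true :=
  ck_s2 ht16 ht17 ht18 ht19 ht20

def n7 : Tr := Tr.cn 6 t23 t24 t25

theorem hn7 : check n7 5 5 11298437964172389388362404349538729983 = true :=
  ck_cn rfl (by decide +kernel) (by decide +kernel) (by decide +kernel) ht23 ht24 ht25

def n8 : Tr := Tr.cn 0 t21 t22 n7

theorem hn8 : check n8 5 5 11298437964172389388357900749911359487 = true :=
  ck_cn rfl (by decide +kernel) (by decide +kernel) (by decide +kernel) ht21 ht22 hn7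

def n9 : Tr := Tr.bn 4 0 2 n6 n8

theorem hn9 : check n9 5 5 604468675540737528430591 = true :=
  ck_bn (by decide +kernel) (by decide +kernel) (by decide +kernel) hn6 hn8

def n10 : Tr := Tr.cn 9 t13 n5 n9

theorem hn10 : check n10 5 5 5765733422941077503 = true :=
  ck_cn rfl (by decide +kernel) (by decide +kernel) (by decide +kernel) ht13 hn5 hn9

def n11 : Tr := Tr.cn 6 t28 t29 t30

theorem hn11 : check n11 5 5 21418224541475137598015512145559551 = true :=
  ck_cn rfl (by decide +kernel) (by decide +kernel) (by decide +kernel) ht28 ht29 ht30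

def n12 : Tr := Tr.cn 5 t27 n11 t31

theorem hn12 : check n12 5 5 21418224541475063811039217307353087 = true :=
  ck_cn rfl (by decide +kernel) (by decide +kernel) (by decide +kernel) ht27 hn11 ht31

def n13 : Tr := Tr.bn 3 1 0 t26 n12

theorem hn13 : check n13 5 5 18899843350919949320191 = true :=
  ck_bn (by decide +kernel) (by decide +kernel) (by decide +kernel) ht26 hn12

def n14 : Tr := Tr.bn 4 1 0 t33 t34

theorem hn14 : check n14 5 5 20769187434365994482719169655603199 = true :=
  ck_bn (by decide +kernel) (by decide +kernel) (by decide +kernel) ht33 ht34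

def n15 : Tr := Tr.cn 7 t36 t37 t38

theorem hn15 : check n15 5 5 10654593153714146324895531137838874623 = true :=
  ck_cn rfl (by decide +kernel) (by decide +kernel) (by decide +kernel) ht36 ht37 ht38

def n16 : Tr := Tr.bn 4 1 2 n15 t39

theorem hn16 : check n16 5 5 20769187434819341665074655596118015 = true :=
  ck_bn (by decide +kernel) (by decide +kernel) (by decide +kernel) hn15 ht39

def n17 : Tr := Tr.cn 9 n14 t35 n16

theorem hn17 : check n17 5 5 20769187434214878755267341008764927 = true :=
  ck_cn rfl (by decide +kernel) (by decide +kernel) (by decide +kernel) hn14 ht35 hn16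

def n18 : Tr := Tr.cn 5 t40 t41 t42

theorem hn18 : check n18 5 5 10709112270803650224989504370900991 = true :=
  ck_cn rfl (by decide +kernel) (by decide +kernel) (by decide +kernel) ht40 ht41 ht42

def n19 : Tr := Tr.bn 3 1 2 n17 n18

theorem hn19 : check n19 5 5 75568241145355691884543 = true :=
  ck_bn (by decide +kernel) (by decide +kernel) (by decide +kernel) hn17 hn18

def n20 : Tr := Tr.cn 8 n13 t32 n19

theorem hn20 : check n20 5 5 10377419441368465407 = true :=
  ck_cn rfl (by decide +kernel) (by decide +kernel) (by decide +kernel) hn13 ht32 hn19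

def n21 : Tr := Tr.cn 7 t44 t45 t46

theorem hn21 : check n21 5 5 21418224541475073034411254162128895 = true :=
  ck_cn rfl (by decide +kernel) (by decide +kernel) (by decide +kernel) ht44 ht45 ht46

def n22 : Tr := Tr.bn 3 1 0 t43 n21

theorem hn22 : check n22 5 5 18909066722956804095999 = true :=
  ck_bn (by decide +kernel) (by decide +kernel) (by decide +kernel) ht43 hn21

def n23 : Tr := Tr.cn 7 t48 t49 t50

theorem hn23 : check n23 5 5 20769187434214887978639377863540735 = true :=
  ck_cn rfl (by decide +kernel) (by decide +kernel) (by decide +kernel) ht48 ht49 ht50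

def n24 : Tr := Tr.bn 3 1 2 n23 t51

theorem hn24 : check n24 5 5 75577464517392546660351 = true :=
  ck_bn (by decide +kernel) (by decide +kernel) (by decide +kernel) hn23 ht51

def n25 : Tr := Tr.cn 8 n22 t47 n24

theorem hn25 : check n25 5 5 19600791478223241215 = true :=
  ck_cn rfl (by decide +kernel) (by decide +kernel) (by decide +kernel) hn22 ht47 hn24

def n26 : Tr := Tr.cn 4 n10 n20 n25

theorem hn26 : check n26 5 5 1154047404513689599 = true :=
  ck_cn rfl (by decide +kernel) (by decide +kernel) (by decide +kernel) hn10 hn20 hn25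

/-- **Cert.** -/
theorem tCert : S_Cert := by
  refine cert_of fun x c hF hc s1 h1 s2 h2 => ?_
  have b := msk_base hF
  rcases hc with ⟨h3, h8⟩ | ⟨h3, h8⟩ | h3
  · have m := msk_T hF (msk_T hF b 3 0 (by norm_num) h3) 8 0 (by norm_num) h8
    rw [show Nat.lor (Nat.lor 1125899906842623 (Nat.pow 2 (50 + 3 * 3 + 0))) (Nat.pow 2 (50 + 3 * 8 + 0)) =
      18890043518130791120895 by decide +kernel] at m
    exact check_sound hF t0 5 5 s1 s2 _ h1 h2 (Or.inl rfl) (Or.inl rfl) m ht0
  · have m := msk_T hF (msk_T hF b 3 0 (by norm_num) h3) 8 1 (by norm_num) h8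
    rw [show Nat.lor (Nat.lor 1125899906842623 (Nat.pow 2 (50 + 3 * 3 + 0))) (Nat.pow 2 (50 + 3 * 8 + 1)) =
      37779509449609371975679 by decide +kernel] at m
    exact check_sound hF n4 5 5 s1 s2 _ h1 h2 (Or.inl rfl) (Or.inl rfl) m hn4
  · have m := msk_T hF b 3 1 (by norm_num) h3
    rw [show Nat.lor 1125899906842623 (Nat.pow 2 (50 + 3 * 3 + 1)) = 1154047404513689599 by decide +kernel] at m
    exact check_sound hF n26 5 5 s1 s2 _ h1 h2 (Or.inl rfl) (Or.inl rfl) m hn26

end Pool.Agent.OT
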