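import Pool.Agent.Lib.OQ.Defs

/-!
# Three curves that meet all lines through the disc (MP_721d21): the linear facts and the claim
-/

set_option autoImplicit false

namespace Pool.Agent.OT3

open Pool.Agent.OQ

noncomputable section

/-- The linear facts on the support values `H i k` of the curve `i` in the direction `θ + k π / 5`; the curve
`c k` meets the tangent line of the direction number `k`. -/
structure Fct (H : Fin 3 → ℕ → ℝ) (c : ℕ → Fin 3) : Prop where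
  per : ∀ i k, H i (k + 10) = H i k
  conv : ∀ i k, (1 + √5) * H i (k + 1) ≤ 2 * (H i k + H i (k + 2))
  wid : ∀ i k, 0 ≤ H i k + H i (k + 5)
  cov : ∀ k, 2 ≤ (H 0 k + H 0 (k + 5)) + (H 1 k + H 1 (k + 5)) + (H 2 k + H 2 (k + 5))
  tan : ∀ k, 1 ≤ H (c k) k
  cper : ∀ k, c (k + 10) = c k
  ovl : ∀ k, c k ≠ c (k + 5) → ∀ l, l ≠ c k → l ≠ c (k + 5) →
    0 ≤ H (c (k + 5)) k + H (c k) (k + 5) ∨
      (0 ≤ H (c (k + 5)) k + H l (k + 5) ∧ 0 ≤ H l k + H (c k) (k + 5))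

/-- The claim of the certificates. -/
def S_Cert : Prop := ∀ (H : Fin 3 → ℕ → ℝ) (c : ℕ → Fin 3), Fct H c → ∀ s₁ s₂ : ℕ, s₁ < 5 → s₂ < 5 →
  (1 + √5) * ((H 0 0 + H 0 5) + (H 1 s₁ + H 1 (s₁ + 5)) + (H 2 s₂ + H 2 (s₂ + 5))) + 47 / 4 ≤
    2 * ∑ k ∈ Finset.range 5,
      ((H 0 k + H 0 (k + 5)) + (H 1 k + H 1 (k + 5)) + (H 2 k + H 2 (k + 5)))

/-- Five directions. -/
def S_Sgn : Prop := ∀ (θ : ℝ) (v : E2), ∃ s : ℕ, s < 5 ∧ ∑ k ∈ Finset.range 5, |pj (θ + k * (Real.pi / 5)) v| ≤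
  (1 + √5) * |pj (θ + s * (Real.pi / 5)) v|

/-- The inequality for five directions. -/
def S_Dir : Prop := ∀ g : Fin 3 → ℝ → E2, (∀ i, ContinuousOn (g i) (Set.Icc 0 1)) →
  (∀ θ p : ℝ, |p| ≤ 1 → ∃ i, ∃ t ∈ Set.Icc (0 : ℝ) 1, pj θ (g i t) = p) → ∀ θ : ℝ,
    47 / 4 ≤ ∑ i : Fin 3, ∑ k ∈ Finset.range 5, (2 * (sp (g i) (θ + k * (Real.pi / 5)) +
      sp (g i) (θ + k * (Real.pi / 5) + Real.pi)) - |pj (θ + k * (Real.pi / 5)) (g i 1 - g i 0)|)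

/-- The theorem. -/
def S_Main : Prop := ∀ γ : Fin 3 → ℝ → EuclideanSpace ℝ (Fin 2), (∀ i, ContinuousOn (γ i) (Set.Icc 0 1)) →
  (∀ l : AffineSubspace ℝ (EuclideanSpace ℝ (Fin 2)), Module.finrank ℝ l.direction = 1 →
    (∃ x ∈ l, ‖x‖ ≤ 1) → ∃ i, ∃ t ∈ Set.Icc (0 : ℝ) 1, γ i t ∈ l) →
  ENNReal.ofReal (47 * Real.pi / 40) ≤ ∑ i, eVariationOn (γ i) (Set.Icc 0 1)

end

end Pool.Agent.OT3
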