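import Pool.Agent.Lib.OT.Spec

/-!
# Three curves that meet all lines through the disc (MP_721d21): soundness of the checker
-/

set_option autoImplicit false

namespace Pool.Agent.OT

/-- The value `a + b √5`. -/
noncomputable def vl (a b : ℤ) : ℝ := a + b * √5

/-- The value of a list of terms. -/
noncomputable def ev (x : ℕ → ℝ) (L : List (ℕ × ℤ × ℤ)) : ℝ :=
  (L.map (fun e => vl e.2.1 e.2.2 * x e.1)).sum

theorem h55 : √5 * √5 = (5 : ℝ) := Real.mul_self_sqrt (by norm_num)

theorem vl_add (a b a' b' : ℤ) : vl (a + a') (b + b') = vl a b + vl a' b' := by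
  simp only [vl]; push_cast; ring

theorem vl_mul (a b p q : ℤ) : vl (a * p + 5 * (b * q)) (a * q + b * p) = vl a b * vl p q := by
  simp only [vl]; push_cast
  linear_combination (-(b : ℝ) * q) * h55

theorem vl_smul (D : ℤ) (a b : ℤ) : vl (D * a) (D * b) = D * vl a b := by
  simp only [vl]; push_cast; ring

theorem nng_sound (a b : ℤ) (h : nng a b = true) : 0 ≤ vl a b := by
  have h3 := h55
  have h0 : 0 ≤ √5 := Real.sqrt_nonneg 5
  unfold vl
  match a, b, h with
  | Int.ofNat a, Int.ofNat b, _ =>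
    have e1 : ((Int.ofNat a : ℤ) : ℝ) = (a : ℝ) := by simp
    have e2 : ((Int.ofNat b : ℤ) : ℝ) = (b : ℝ) := by simp
    rw [e1, e2]
    positivity
  | Int.ofNat a, Int.negSucc b, h =>
    have h' : 5 * ((b + 1) * (b + 1)) ≤ a * a := Nat.le_of_ble_eq_true h
    have hb : 5 * (((b : ℝ) + 1) * (b + 1)) ≤ a * a := by exact_mod_cast h'
    have e1 : ((Int.ofNat a : ℤ) : ℝ) = (a : ℝ) := by simp
    have e2 : ((Int.negSucc b : ℤ) : ℝ) = -((b : ℝ) + 1) := by rw [Int.cast_negSucc]; push_cast; ring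
    rw [e1, e2]
    have h1 : (((b : ℝ) + 1) * √5) ^ 2 ≤ (a : ℝ) ^ 2 := by nlinarith
    have h2 := abs_le_of_sq_le_sq h1 (by positivity)
    linarith [(abs_le.1 h2).2]
  | Int.negSucc a, Int.ofNat b, h =>
    have h' : (a + 1) * (a + 1) ≤ 5 * (b * b) := Nat.le_of_ble_eq_true h
    have hb : ((a : ℝ) + 1) * (a + 1) ≤ 5 * (b * b) := by exact_mod_cast h'
    have e1 : ((Int.negSucc a : ℤ) : ℝ) = -((a : ℝ) + 1) := by rw [Int.cast_negSucc]; push_cast; ring
    have e2 : ((Int.ofNat b : ℤ) : ℝ) = (b : ℝ) := by simp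
    rw [e1, e2]
    have h1 : ((a : ℝ) + 1) ^ 2 ≤ ((b : ℝ) * √5) ^ 2 := by nlinarith
    have h2 := abs_le_of_sq_le_sq h1 (by positivity)
    linarith [(abs_le.1 h2).2]

/-- The sums over a certificate. -/
def sA : List ℕ → ℤ
  | [] => 0
  | n :: c => (ca n * pkA (row (cid n)) + 5 * (cb n * pkB (row (cid n)))) + sA c

def sB : List ℕ → ℤ
  | [] => 0
  | n :: c => (ca n * pkB (row (cid n)) + cb n * pkA (row (cid n))) + sB c

def vA : List ℕ → ℤ
  | [] => 0
  | n :: c => ca n * cst (cid n) + vA c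

def vB : List ℕ → ℤ
  | [] => 0
  | n :: c => cb n * cst (cid n) + vB c

/-- The coefficients of a list of terms. -/
def cA : List (ℕ × ℤ × ℤ) → ℕ → ℤ
  | [], _ => 0
  | e :: L, j => (if e.1 = j then e.2.1 else 0) + cA L j

def cB : List (ℕ × ℤ × ℤ) → ℕ → ℤ
  | [], _ => 0
  | e :: L, j => (if e.1 = j then e.2.2 else 0) + cB L j

theorem pkA_eq (L : List (ℕ × ℤ × ℤ)) (h : ∀ e ∈ L, e.1 < 30) :
    pkA L = ∑ j ∈ Finset.range 30, cA L j * 16777216 ^ j := by
  induction L with
  | nil => simp [pkA, cA]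
  | cons e L ih =>
    rw [pkA, ih (fun m hm => h m (List.mem_cons_of_mem _ hm))]
    have he : e.1 ∈ Finset.range 30 := Finset.mem_range.2 (h e (by simp))
    simp only [cA, add_mul, Finset.sum_add_distrib, ite_mul, zero_mul]
    rw [Finset.sum_ite_eq, if_pos he]
    push_cast
    rfl

theorem pkB_eq (L : List (ℕ × ℤ × ℤ)) (h : ∀ e ∈ L, e.1 < 30) :
    pkB L = ∑ j ∈ Finset.range 30, cB L j * 16777216 ^ j := by
  induction L with
  | nil => simp [pkB, cB]
  | cons e L ih =>
    rw [pkB, ih (fun m hm => h m (List.mem_cons_of_mem _ hm))]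
    have he : e.1 ∈ Finset.range 30 := Finset.mem_range.2 (h e (by simp))
    simp only [cB, add_mul, Finset.sum_add_distrib, ite_mul, zero_mul]
    rw [Finset.sum_ite_eq, if_pos he]
    push_cast
    rfl

theorem ev_cons (x : ℕ → ℝ) (e : ℕ × ℤ × ℤ) (L : List (ℕ × ℤ × ℤ)) :
    ev x (e :: L) = vl e.2.1 e.2.2 * x e.1 + ev x L := by simp [ev]

theorem ev_nil (x : ℕ → ℝ) : ev x [] = 0 := by simp [ev]

theorem ev_eq (x : ℕ → ℝ) (L : List (ℕ × ℤ × ℤ)) (h : ∀ e ∈ L, e.1 < 30) :
    ev x L = ∑ j ∈ Finset.range 30, vl (cA L j) (cB L j) * x j := by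
  induction L with
  | nil => simp [ev, cA, cB, vl]
  | cons e L ih =>
    rw [ev_cons, ih (fun m hm => h m (List.mem_cons_of_mem _ hm))]
    have he : e.1 ∈ Finset.range 30 := Finset.mem_range.2 (h e (by simp))
    have h1 : ∀ j, vl (cA (e :: L) j) (cB (e :: L) j) * x j =
        (if e.1 = j then vl e.2.1 e.2.2 * x j else 0) + vl (cA L j) (cB L j) * x j := by
      intro j
      by_cases hj : e.1 = j
      · simp only [cA, cB, hj, if_true]
        rw [vl_add]; ring
      · simp only [cA, cB, hj, if_false, zero_add]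
    simp only [h1]
    rw [Finset.sum_add_distrib, Finset.sum_ite_eq, if_pos he]

theorem digits (N : ℕ) : ∀ u : ℕ → ℤ, ∑ j ∈ Finset.range N, u j * 16777216 ^ j = 0 →
    (∀ j < N, |u j| < 16777216) → ∀ j < N, u j = 0 := by
  induction N with
  | zero => intro u _ _ j hj; omega
  | succ N ih =>
    intro u h hb
    rw [Finset.sum_range_succ'] at h
    have h1 : ∑ j ∈ Finset.range N, u (j + 1) * 16777216 ^ (j + 1) =
        16777216 * ∑ j ∈ Finset.range N, u (j + 1) * 16777216 ^ j := by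
      rw [Finset.mul_sum]
      exact Finset.sum_congr rfl fun j _ => by ring
    rw [h1, pow_zero, mul_one] at h
    have h0 : u 0 = 0 := by
      apply Int.eq_zero_of_abs_lt_dvd (m := 16777216) _ (hb 0 (by omega))
      exact ⟨-∑ j ∈ Finset.range N, u (j + 1) * 16777216 ^ j, by linarith⟩
    rw [h0, add_zero] at h
    have h2 : ∑ j ∈ Finset.range N, u (j + 1) * 16777216 ^ j = 0 := by linarith
    intro j hj
    rcases j with _ | j
    · exact h0
    · exact ih (fun j => u (j + 1)) h2 (fun j hj => hb (j + 1) (by omega)) j (by omega)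

/-- The total coefficients of a certificate. -/
def TA (c : List ℕ) (j : ℕ) : ℤ :=
  (c.map (fun n => ca n * cA (row (cid n)) j + 5 * (cb n * cB (row (cid n)) j))).sum

def TB (c : List ℕ) (j : ℕ) : ℤ :=
  (c.map (fun n => ca n * cB (row (cid n)) j + cb n * cA (row (cid n)) j)).sum

theorem row_lt : ∀ id < 125, ∀ e ∈ row id, e.1 < 30 := by decide +kernel

theorem rowA_le : ∀ id < 125, ∀ j < 30, |cA (row id) j| ≤ 2 := by decide +kernel

theorem rowB_le : ∀ id < 125, ∀ j < 30, |cB (row id) j| ≤ 1 := by decide +kernel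

theorem ob_lt : ∀ i < 3, ∀ s < 6, ∀ e ∈ ob i s, e.1 < 30 := by decide +kernel

theorem obA_le : ∀ i < 3, ∀ s < 6, ∀ j < 30, |cA (ob i s) j| ≤ 2 := by decide +kernel

theorem obB_le : ∀ i < 3, ∀ s < 6, ∀ j < 30, |cB (ob i s) j| ≤ 2 := by decide +kernel

theorem sA_eq (c : List ℕ) (h : ∀ n ∈ c, cid n < 125) :
    sA c = ∑ j ∈ Finset.range 30, TA c j * 16777216 ^ j := by
  induction c with
  | nil => simp [sA, TA]
  | cons n c ih =>
    rw [sA, ih (fun m hm => h m (List.mem_cons_of_mem _ hm)), pkA_eq _ (row_lt _ (h n (by simp))),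
      pkB_eq _ (row_lt _ (h n (by simp))), Finset.mul_sum, Finset.mul_sum, Finset.mul_sum, ← Finset.sum_add_distrib,
      ← Finset.sum_add_distrib]
    exact Finset.sum_congr rfl fun j _ => by
      simp only [TA, List.map_cons, List.sum_cons]; ring

theorem sB_eq (c : List ℕ) (h : ∀ n ∈ c, cid n < 125) :
    sB c = ∑ j ∈ Finset.range 30, TB c j * 16777216 ^ j := by
  induction c with
  | nil => simp [sB, TB]
  | cons n c ih =>
    rw [sB, ih (fun m hm => h m (List.mem_cons_of_mem _ hm)), pkA_eq _ (row_lt _ (h n (by simp))),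
      pkB_eq _ (row_lt _ (h n (by simp))), Finset.mul_sum, Finset.mul_sum, ← Finset.sum_add_distrib,
      ← Finset.sum_add_distrib]
    exact Finset.sum_congr rfl fun j _ => by
      simp only [TB, List.map_cons, List.sum_cons]; ring

theorem ca_le (n : ℕ) : |ca n| ≤ 1024 := by
  have h : ca n = ((n / 2048 % 2048 : ℕ) : ℤ) - 1024 := Int.subNatNat_eq_coe
  have := Nat.mod_lt (n / 2048) (by norm_num : 0 < 2048)
  rw [h, abs_le]
  omega

theorem cb_le (n : ℕ) : |cb n| ≤ 1024 := by
  have h : cb n = ((n % 2048 : ℕ) : ℤ) - 1024 := Int.subNatNat_eq_coe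
  have := Nat.mod_lt n (by norm_num : 0 < 2048)
  rw [h, abs_le]
  omega

theorem TA_le (c : List ℕ) (h : ∀ n ∈ c, cid n < 125) (j : ℕ) (hj : j < 30) :
    |TA c j| ≤ 7168 * c.length := by
  induction c with
  | nil => simp [TA]
  | cons n c ih =>
    have h1 := ih (fun m hm => h m (List.mem_cons_of_mem _ hm))
    have a1 := ca_le n
    have a2 := cb_le n
    have a3 := rowA_le _ (h n (by simp)) j hj
    have a4 := rowB_le _ (h n (by simp)) j hj
    have e : TA (n :: c) j = (ca n * cA (row (cid n)) j + 5 * (cb n * cB (row (cid n)) j)) + TA c j := by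
      simp [TA]
    have b1 : |ca n * cA (row (cid n)) j| ≤ 1024 * 2 := by
      rw [abs_mul]; exact mul_le_mul a1 a3 (abs_nonneg _) (by norm_num)
    have b2 : |cb n * cB (row (cid n)) j| ≤ 1024 * 1 := by
      rw [abs_mul]; exact mul_le_mul a2 a4 (abs_nonneg _) (by norm_num)
    rw [e, List.length_cons]
    push_cast
    rw [abs_le] at *
    constructor <;> linarith [b1.1, b1.2, b2.1, b2.2, h1.1, h1.2]

theorem TB_le (c : List ℕ) (h : ∀ n ∈ c, cid n < 125) (j : ℕ) (hj : j < 30) :
    |TB c j| ≤ 7168 * c.length := by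
  induction c with
  | nil => simp [TB]
  | cons n c ih =>
    have h1 := ih (fun m hm => h m (List.mem_cons_of_mem _ hm))
    have a1 := ca_le n
    have a2 := cb_le n
    have a3 := rowA_le _ (h n (by simp)) j hj
    have a4 := rowB_le _ (h n (by simp)) j hj
    have e : TB (n :: c) j = (ca n * cB (row (cid n)) j + cb n * cA (row (cid n)) j) + TB c j := by
      simp [TB]
    have b1 : |cb n * cA (row (cid n)) j| ≤ 1024 * 2 := by
      rw [abs_mul]; exact mul_le_mul a2 a3 (abs_nonneg _) (by norm_num)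
    have b2 : |ca n * cB (row (cid n)) j| ≤ 1024 * 1 := by
      rw [abs_mul]; exact mul_le_mul a1 a4 (abs_nonneg _) (by norm_num)
    rw [e, List.length_cons]
    push_cast
    rw [abs_le] at *
    constructor <;> linarith [b1.1, b1.2, b2.1, b2.2, h1.1, h1.2]

/-- The real sum of a certificate. -/
noncomputable def rs (x : ℕ → ℝ) (c : List ℕ) : ℝ :=
  (c.map (fun n => vl (ca n) (cb n) * ev x (row (cid n)))).sum

theorem rs_eq (x : ℕ → ℝ) (c : List ℕ) (h : ∀ n ∈ c, cid n < 125) :
    rs x c = ∑ j ∈ Finset.range 30, vl (TA c j) (TB c j) * x j := by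
  induction c with
  | nil => simp [rs, TA, TB, vl]
  | cons n c ih =>
    have e : rs x (n :: c) = vl (ca n) (cb n) * ev x (row (cid n)) + rs x c := by simp [rs]
    rw [e, ih (fun m hm => h m (List.mem_cons_of_mem _ hm)), ev_eq x _ (row_lt _ (h n (by simp))), Finset.mul_sum,
      ← Finset.sum_add_distrib]
    refine Finset.sum_congr rfl fun j _ => ?_
    simp only [TA, TB, List.map_cons, List.sum_cons]
    rw [vl_add, vl_mul]
    ring

theorem rs_ge (x : ℕ → ℝ) (c : List ℕ)
    (h : ∀ n ∈ c, 0 ≤ vl (ca n) (cb n) ∧ (cst (cid n) : ℝ) ≤ ev x (row (cid n))) :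
    vl (vA c) (vB c) ≤ rs x c := by
  induction c with
  | nil => simp [rs, vA, vB, vl]
  | cons n c ih =>
    have e : rs x (n :: c) = vl (ca n) (cb n) * ev x (row (cid n)) + rs x c := by simp [rs]
    have h1 := ih (fun m hm => h m (List.mem_cons_of_mem _ hm))
    have h2 := h n (by simp)
    have h3 := mul_le_mul_of_nonneg_left h2.2 h2.1
    have h4 : vl (vA (n :: c)) (vB (n :: c)) = vl (ca n) (cb n) * (cst (cid n) : ℝ) + vl (vA c) (vB c) := by
      simp only [vA, vB, vl]; push_cast; ring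
    rw [e, h4]
    linarith

/-- The entries of a certificate. -/
def decs (N : ℕ) : ℕ → List ℕ
  | 0 => []
  | f + 1 => dc N f :: decs N f

theorem decs_len (N f : ℕ) : (decs N f).length = f := by
  induction f with
  | zero => rfl
  | succ f ih => simp [decs, ih]

theorem ao_sound (m N : ℕ) : ∀ f, ao m N f = true → ∀ n ∈ decs N f, bt m (cid n) = true ∧ nng (ca n) (cb n) = true := by
  intro f
  induction f with
  | zero => intro _ n hn; simp [decs] at hn
  | succ f ih =>
    intro h n hn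
    simp only [ao, Bool.and_eq_true] at h
    simp only [decs, List.mem_cons] at hn
    rcases hn with rfl | hn
    · exact ⟨h.1, h.2.1⟩
    · exact ih h.2.2 n hn

theorem tP_eq : ∀ id < 125, tP id = pkA (row id) + ((16777216 ^ 30 : ℕ) : ℤ) * pkB (row id) +
    ((16777216 ^ 60 : ℕ) : ℤ) * cst id := by decide +kernel

theorem tQ_eq : ∀ id < 125, tQ id = 5 * pkB (row id) + ((16777216 ^ 30 : ℕ) : ℤ) * pkA (row id) +
    ((16777216 ^ 61 : ℕ) : ℤ) * cst id := by decide +kernel

theorem ss_eq (N : ℕ) : ∀ f, (∀ n ∈ decs N f, cid n < 125) →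
    ss N f = sA (decs N f) + ((16777216 ^ 30 : ℕ) : ℤ) * sB (decs N f) + ((16777216 ^ 60 : ℕ) : ℤ) * vA (decs N f) +
      ((16777216 ^ 61 : ℕ) : ℤ) * vB (decs N f) := by
  intro f
  induction f with
  | zero => intro _; simp [ss, decs, sA, sB, vA, vB]
  | succ f ih =>
    intro h
    have h1 := ih (fun n hn => h n (by simp [decs, hn]))
    have h2 := h (dc N f) (by simp [decs])
    have e : ss N (f + 1) = (ca (dc N f) * tP (cid (dc N f)) + cb (dc N f) * tQ (cid (dc N f))) + ss N f := rfl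
    rw [e, h1, tP_eq _ h2, tQ_eq _ h2]
    simp only [decs, sA, sB, vA, vB]
    generalize ((16777216 ^ 30 : ℕ) : ℤ) = W1
    generalize ((16777216 ^ 60 : ℕ) : ℤ) = W2
    generalize ((16777216 ^ 61 : ℕ) : ℤ) = W3
    ring

theorem vA_le (c : List ℕ) (h : ∀ n ∈ c, cid n < 125) : |vA c| ≤ 2048 * c.length := by
  induction c with
  | nil => simp [vA]
  | cons n c ih =>
    have h1 := ih (fun m hm => h m (List.mem_cons_of_mem _ hm))
    have a1 := ca_le n
    have a2 : |cst (cid n)| ≤ 2 := by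
      unfold cst; split_ifs <;> norm_num
    have b1 : |ca n * cst (cid n)| ≤ 1024 * 2 := by
      rw [abs_mul]; exact mul_le_mul a1 a2 (abs_nonneg _) (by norm_num)
    rw [vA, List.length_cons]
    push_cast
    rw [abs_le] at *
    constructor <;> linarith [b1.1, b1.2, h1.1, h1.2]

theorem vB_le (c : List ℕ) (h : ∀ n ∈ c, cid n < 125) : |vB c| ≤ 2048 * c.length := by
  induction c with
  | nil => simp [vB]
  | cons n c ih =>
    have h1 := ih (fun m hm => h m (List.mem_cons_of_mem _ hm))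
    have a1 := cb_le n
    have a2 : |cst (cid n)| ≤ 2 := by
      unfold cst; split_ifs <;> norm_num
    have b1 : |cb n * cst (cid n)| ≤ 1024 * 2 := by
      rw [abs_mul]; exact mul_le_mul a1 a2 (abs_nonneg _) (by norm_num)
    rw [vB, List.length_cons]
    push_cast
    rw [abs_le] at *
    constructor <;> linarith [b1.1, b1.2, h1.1, h1.2]

theorem big (p q : ℕ → ℤ) (r t : ℤ)
    (h : (∑ j ∈ Finset.range 30, p j * 16777216 ^ j) + 16777216 ^ 30 * (∑ j ∈ Finset.range 30, q j * 16777216 ^ j) +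
      16777216 ^ 60 * r + 16777216 ^ 61 * t = 0)
    (hp : ∀ j < 30, |p j| < 16777216) (hq : ∀ j < 30, |q j| < 16777216) (hr : |r| < 16777216) (ht : |t| < 16777216) :
    (∀ j < 30, p j = 0) ∧ (∀ j < 30, q j = 0) ∧ r = 0 ∧ t = 0 := by
  have key := digits 62 (fun j => if j < 30 then p j else if j < 60 then q (j - 30) else if j = 60 then r else t) (by
      rw [Finset.sum_range_succ, Finset.sum_range_succ, show (60 : ℕ) = 30 + 30 from rfl, Finset.sum_range_add]
      have e1 : ∑ j ∈ Finset.range 30, (if j < 30 then p j else if j < 30 + 30 then q (j - 30) else if j = 30 + 30 then r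
          else t) * 16777216 ^ j = ∑ j ∈ Finset.range 30, p j * 16777216 ^ j :=
        Finset.sum_congr rfl fun j hj => by rw [if_pos (Finset.mem_range.1 hj)]
      have e2 : ∑ j ∈ Finset.range 30, (if 30 + j < 30 then p (30 + j) else if 30 + j < 30 + 30 then q (30 + j - 30) else
          if 30 + j = 30 + 30 then r else t) * (16777216 : ℤ) ^ (30 + j) =
          16777216 ^ 30 * ∑ j ∈ Finset.range 30, q j * 16777216 ^ j := by
        rw [Finset.mul_sum]
        refine Finset.sum_congr rfl fun j hj => ?_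
        have := Finset.mem_range.1 hj
        rw [if_neg (by omega), if_pos (by omega), Nat.add_sub_cancel_left, pow_add]
        ring
      rw [e1, e2]
      norm_num at h ⊢
      linarith) (by
      intro j hj
      by_cases h1 : j < 30
      · simp only [h1, if_true]; exact hp j h1
      · by_cases h2 : j < 60
        · simp only [h1, h2, if_true, if_false]; exact hq (j - 30) (by omega)
        · by_cases h3 : j = 60
          · subst h3; simpa using hr
          · simp only [h1, h2, h3, if_false]; exact ht)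
  refine ⟨fun j hj => ?_, fun j hj => ?_, ?_, ?_⟩
  · have := key j (by omega)
    simpa only [hj, if_true] using this
  · have := key (30 + j) (by omega)
    rw [if_neg (by omega), if_pos (by omega), Nat.add_sub_cancel_left] at this
    exact this
  · simpa using key 60 (by norm_num)
  · simpa using key 61 (by norm_num)

theorem leaf_core {x : ℕ → ℝ} (s1 s2 : ℕ) (h1 : s1 < 6) (h2 : s2 < 6) (D : ℕ) (c : List ℕ) (hD : 1 ≤ D)
    (hc : ∀ n ∈ c, cid n < 125 ∧ (0 ≤ vl (ca n) (cb n) ∧ (cst (cid n) : ℝ) ≤ ev x (row (cid n))))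
    (uA : ∀ j < 30, TA c j - D * (cA (ob 0 0) j + cA (ob 1 s1) j + cA (ob 2 s2) j) = 0)
    (uB : ∀ j < 30, TB c j - D * (cB (ob 0 0) j + cB (ob 1 s1) j + cB (ob 2 s2) j) = 0)
    (hv : 0 ≤ vl (4 * vA c - 47 * D) (4 * vB c)) :
    47 / 4 ≤ ev x (ob 0 0) + ev x (ob 1 s1) + ev x (ob 2 s2) := by
  have hid := fun n hn => (hc n hn).1
  have k0 := ob_lt 0 (by norm_num) 0 (by norm_num)
  have k1 := ob_lt 1 (by norm_num) s1 h1
  have k2 := ob_lt 2 (by norm_num) s2 h2
  have e1 : rs x c = (D : ℝ) * (ev x (ob 0 0) + ev x (ob 1 s1) + ev x (ob 2 s2)) := by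
    rw [rs_eq x c hid, ev_eq x _ k0, ev_eq x _ k1, ev_eq x _ k2, ← Finset.sum_add_distrib, ← Finset.sum_add_distrib,
      Finset.mul_sum]
    refine Finset.sum_congr rfl fun j hj => ?_
    have a := uA j (Finset.mem_range.1 hj)
    have b := uB j (Finset.mem_range.1 hj)
    rw [sub_eq_zero] at a b
    rw [a, b, vl_smul, vl_add, vl_add]
    push_cast
    ring
  have e2 := rs_ge x c (fun n hn => (hc n hn).2)
  have e4 : vl (4 * vA c - 47 * (D : ℤ)) (4 * vB c) = 4 * vl (vA c) (vB c) - 47 * (D : ℝ) := by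
    simp only [vl]; push_cast; ring
  rw [e4] at hv
  have hDr : (0 : ℝ) < D := by exact_mod_cast hD
  have e5 : (D : ℝ) * (47 / 4) ≤ D * (ev x (ob 0 0) + ev x (ob 1 s1) + ev x (ob 2 s2)) := by
    rw [← e1]
    linarith
  exact le_of_mul_le_mul_left e5 hDr

/-- What the bits of the mask `m` mean. -/
def Msk (x : ℕ → ℝ) (c : ℕ → ℕ) (m : ℕ) : Prop := ∀ id, bt m id = true → id < 125 ∧ (cst id : ℝ) ≤ ev x (row id) ∧
  (50 ≤ id → id < 80 → c ((id - 50) / 3) = (id - 50) % 3)

theorem leaf_sound {x : ℕ → ℝ} {c : ℕ → ℕ} (s1 s2 m : ℕ) (h1 : s1 < 6) (h2 : s2 < 6) (hm : Msk x c m) (D u v len N : ℕ)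
    (h : leafok s1 s2 m D u v len N = true) :
    47 / 4 ≤ ev x (ob 0 0) + ev x (ob 1 s1) + ev x (ob 2 s2) := by
  simp only [leafok, Bool.and_eq_true, decide_eq_true_eq] at h
  obtain ⟨hD, hD2, hlen, hu, hw, hv, hall, hS⟩ := h
  have hD := Nat.le_of_ble_eq_true hD
  have hD2 := Nat.le_of_ble_eq_true hD2
  have hlen := Nat.le_of_ble_eq_true hlen
  have hu := Nat.le_of_ble_eq_true hu
  have hw := Nat.le_of_ble_eq_true hw
  have hc : ∀ n ∈ decs N len, cid n < 125 ∧ (0 ≤ vl (ca n) (cb n) ∧ (cst (cid n) : ℝ) ≤ ev x (row (cid n))) := by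
    intro n hn
    obtain ⟨h3, h4⟩ := ao_sound m N len hall n hn
    have h5 := nng_sound _ _ h4
    have h6 := hm _ h3
    exact ⟨h6.1, h5, h6.2.1⟩
  have hid := fun n hn => (hc n hn).1
  have k0 := ob_lt 0 (by norm_num) 0 (by norm_num)
  have k1 := ob_lt 1 (by norm_num) s1 h1
  have k2 := ob_lt 2 (by norm_num) s2 h2
  have hl := decs_len N len
  have hlen' : ((decs N len).length : ℤ) ≤ 128 := by rw [hl]; exact_mod_cast hlen
  have hD2' : (D : ℤ) ≤ 1048576 := by exact_mod_cast hD2
  have hD0 : (0 : ℤ) ≤ D := by positivity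
  have eu : Int.subNatNat u 1048576 = (u : ℤ) - 1048576 := Int.subNatNat_eq_coe
  have ew : Int.subNatNat v 1048576 = (v : ℤ) - 1048576 := Int.subNatNat_eq_coe
  have eS : ss N len = D * ((pkA (ob 0 0) + ((16777216 ^ 30 : ℕ) : ℤ) * pkB (ob 0 0)) +
      ((pkA (ob 1 s1) + ((16777216 ^ 30 : ℕ) : ℤ) * pkB (ob 1 s1)) +
        (pkA (ob 2 s2) + ((16777216 ^ 30 : ℕ) : ℤ) * pkB (ob 2 s2)))) +
      (((16777216 ^ 60 : ℕ) : ℤ) * ((u : ℤ) - 1048576) + ((16777216 ^ 61 : ℕ) : ℤ) * ((v : ℤ) - 1048576)) := by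
    rw [hS, eu, ew]
    rfl
  rw [ss_eq N len hid, sA_eq _ hid, sB_eq _ hid, pkA_eq _ k0, pkA_eq _ k1, pkA_eq _ k2, pkB_eq _ k0, pkB_eq _ k1,
    pkB_eq _ k2] at eS
  have key := big (fun j => TA (decs N len) j - D * (cA (ob 0 0) j + cA (ob 1 s1) j + cA (ob 2 s2) j))
    (fun j => TB (decs N len) j - D * (cB (ob 0 0) j + cB (ob 1 s1) j + cB (ob 2 s2) j))
    (vA (decs N len) - ((u : ℤ) - 1048576)) (vB (decs N len) - ((v : ℤ) - 1048576)) (by
      have a1 : ∑ j ∈ Finset.range 30, (TA (decs N len) j - D * (cA (ob 0 0) j + cA (ob 1 s1) j + cA (ob 2 s2) j)) *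
          16777216 ^ j = (∑ j ∈ Finset.range 30, TA (decs N len) j * 16777216 ^ j) -
          D * ((∑ j ∈ Finset.range 30, cA (ob 0 0) j * 16777216 ^ j) +
            (∑ j ∈ Finset.range 30, cA (ob 1 s1) j * 16777216 ^ j) +
            (∑ j ∈ Finset.range 30, cA (ob 2 s2) j * 16777216 ^ j)) := by
        rw [← Finset.sum_add_distrib, ← Finset.sum_add_distrib, Finset.mul_sum, ← Finset.sum_sub_distrib]
        exact Finset.sum_congr rfl fun j _ => by ring
      have a2 : ∑ j ∈ Finset.range 30, (TB (decs N len) j - D * (cB (ob 0 0) j + cB (ob 1 s1) j + cB (ob 2 s2) j)) *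
          16777216 ^ j = (∑ j ∈ Finset.range 30, TB (decs N len) j * 16777216 ^ j) -
          D * ((∑ j ∈ Finset.range 30, cB (ob 0 0) j * 16777216 ^ j) +
            (∑ j ∈ Finset.range 30, cB (ob 1 s1) j * 16777216 ^ j) +
            (∑ j ∈ Finset.range 30, cB (ob 2 s2) j * 16777216 ^ j)) := by
        rw [← Finset.sum_add_distrib, ← Finset.sum_add_distrib, Finset.mul_sum, ← Finset.sum_sub_distrib]
        exact Finset.sum_congr rfl fun j _ => by ring
      rw [a1, a2]
      push_cast at eS ⊢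
      linear_combination eS)
    (by
      intro j hj
      have q := TA_le (decs N len) hid j hj
      have q0 := obA_le 0 (by norm_num) 0 (by norm_num) j hj
      have q1 := obA_le 1 (by norm_num) s1 h1 j hj
      have q2 := obA_le 2 (by norm_num) s2 h2 j hj
      have q3 : |cA (ob 0 0) j + cA (ob 1 s1) j + cA (ob 2 s2) j| ≤ 6 := by
        rw [abs_le] at *
        constructor <;> linarith [q0.1, q0.2, q1.1, q1.2, q2.1, q2.2]
      have q4 : |(D : ℤ) * (cA (ob 0 0) j + cA (ob 1 s1) j + cA (ob 2 s2) j)| ≤ 1048576 * 6 := by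
        rw [abs_mul, abs_of_nonneg hD0]
        exact mul_le_mul hD2' q3 (abs_nonneg _) (by norm_num)
      rw [abs_le] at q q4
      rw [abs_lt]
      constructor <;> linarith [q.1, q.2, q4.1, q4.2])
    (by
      intro j hj
      have q := TB_le (decs N len) hid j hj
      have q0 := obB_le 0 (by norm_num) 0 (by norm_num) j hj
      have q1 := obB_le 1 (by norm_num) s1 h1 j hj
      have q2 := obB_le 2 (by norm_num) s2 h2 j hj
      have q3 : |cB (ob 0 0) j + cB (ob 1 s1) j + cB (ob 2 s2) j| ≤ 6 := by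
        rw [abs_le] at *
        constructor <;> linarith [q0.1, q0.2, q1.1, q1.2, q2.1, q2.2]
      have q4 : |(D : ℤ) * (cB (ob 0 0) j + cB (ob 1 s1) j + cB (ob 2 s2) j)| ≤ 1048576 * 6 := by
        rw [abs_mul, abs_of_nonneg hD0]
        exact mul_le_mul hD2' q3 (abs_nonneg _) (by norm_num)
      rw [abs_le] at q q4
      rw [abs_lt]
      constructor <;> linarith [q.1, q.2, q4.1, q4.2])
    (by
      have q := vA_le (decs N len) hid
      rw [abs_le] at q
      have hu' : (u : ℤ) ≤ 2097152 := by exact_mod_cast hu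
      have hu0 : (0 : ℤ) ≤ u := by positivity
      rw [abs_lt]
      constructor <;> linarith [q.1, q.2])
    (by
      have q := vB_le (decs N len) hid
      rw [abs_le] at q
      have hu' : (v : ℤ) ≤ 2097152 := by exact_mod_cast hw
      have hu0 : (0 : ℤ) ≤ v := by positivity
      rw [abs_lt]
      constructor <;> linarith [q.1, q.2])
  obtain ⟨uA, uB, r0, t0⟩ := key
  refine leaf_core s1 s2 h1 h2 D (decs N len) hD hc uA uB ?_
  have e3 := nng_sound _ _ hv
  have r1 : vA (decs N len) = (u : ℤ) - 1048576 := by linarith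
  have t1 : vB (decs N len) = (v : ℤ) - 1048576 := by linarith
  rw [r1, t1, ← eu, ← ew]
  exact e3

end Pool.Agent.OT
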