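import Pool.Agent.Lib.OT.Snd

/-!
# Three curves that meet all lines through the disc (MP_721d21): soundness of the checker, part 2
-/

set_option autoImplicit false

namespace Pool.Agent.OT

/-! ### The rows -/

theorem row_base {x : ℕ → ℝ} {c : ℕ → ℕ} (hF : Fct x c) (id : ℕ) (h : id < 50) : (cst id : ℝ) ≤ ev x (row id) := by
  by_cases h1 : id < 30
  · have e := hF.conv (id / 10) (by omega) (id % 10) (by omega)
    have e1 : cst id = 0 := by unfold cst; rw [if_pos (by omega)]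
    have e2 : ev x (row id) = 2 * x (10 * (id / 10) + (id % 10 + 9) % 10) + 2 * x (10 * (id / 10) + (id % 10 + 1) % 10) -
        (1 + √5) * x (10 * (id / 10) + id % 10) := by
      unfold row; rw [if_pos h1]; simp only [ev, vl, List.map_cons, List.map_nil, List.sum_cons, List.sum_nil]
      push_cast; ring
    rw [e1, e2]; exact_mod_cast e
  · by_cases h2 : id < 45
    · have e := hF.wid ((id - 30) / 5) (by omega) ((id - 30) % 5) (by omega)
      have e1 : cst id = 0 := by unfold cst; rw [if_pos (by omega)]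
      have e2 : ev x (row id) = x (10 * ((id - 30) / 5) + (id - 30) % 5) + x (10 * ((id - 30) / 5) + (id - 30) % 5 + 5) := by
        unfold row; rw [if_neg h1, if_pos h2]; simp only [ev, vl, List.map_cons, List.map_nil, List.sum_cons, List.sum_nil]
        push_cast; ring
      rw [e1, e2]; exact_mod_cast e
    · have e := hF.two (id - 45) (by omega)
      have e1 : cst id = 2 := by unfold cst; rw [if_neg h2, if_pos h]
      have e2 : ev x (row id) = x (id - 45) + x (id - 45 + 5) + x (id - 45 + 10) + x (id - 45 + 15) + x (id - 45 + 20) +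
          x (id - 45 + 25) := by
        unfold row; rw [if_neg h1, if_neg h2, if_pos h]
        simp only [ev, vl, List.map_cons, List.map_nil, List.sum_cons, List.sum_nil]
        push_cast; ring
      rw [e1, e2]; exact_mod_cast e

theorem row_T (x : ℕ → ℝ) (k i : ℕ) (hk : k < 10) (hi : i < 3) :
    cst (50 + 3 * k + i) = 1 ∧ ev x (row (50 + 3 * k + i)) = x (10 * i + k) := by
  constructor
  · unfold cst; rw [if_neg (by omega), if_neg (by omega), if_pos (by omega)]
  · unfold row; rw [if_neg (by omega), if_neg (by omega), if_neg (by omega), if_pos (by omega)]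
    simp only [ev, vl, List.map_cons, List.map_nil, List.sum_cons, List.sum_nil]
    rw [show (50 + 3 * k + i - 50) % 3 = i by omega, show (50 + 3 * k + i - 50) / 3 = k by omega]
    push_cast; ring

theorem row_C (x : ℕ → ℝ) (k a b : ℕ) (hk : k < 5) (ha : a < 3) (hb : b < 3) :
    cst (80 + 9 * k + 3 * a + b) = 0 ∧ ev x (row (80 + 9 * k + 3 * a + b)) = x (10 * a + k) + x (10 * b + k + 5) := by
  constructor
  · unfold cst; rw [if_neg (by omega), if_neg (by omega), if_neg (by omega)]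
  · unfold row; rw [if_neg (by omega), if_neg (by omega), if_neg (by omega), if_neg (by omega)]
    simp only [ev, vl, List.map_cons, List.map_nil, List.sum_cons, List.sum_nil]
    rw [show (80 + 9 * k + 3 * a + b - 80) % 9 / 3 = a by omega, show (80 + 9 * k + 3 * a + b - 80) / 9 = k by omega,
      show (80 + 9 * k + 3 * a + b - 80) % 3 = b by omega]
    push_cast; ring

/-! ### The masks -/

theorem bt_iff (m id : ℕ) : bt m id = true ↔ Nat.testBit m id = true := by
  rw [Nat.testBit_eq_decide_div_mod_eq, decide_eq_true_eq]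
  constructor
  · intro h; exact Nat.eq_of_beq_eq_true h
  · intro h
    show Nat.beq (m / 2 ^ id % 2) 1 = true
    rw [h]; rfl

theorem bt_or (m a id : ℕ) (h : bt (Nat.lor m (Nat.pow 2 a)) id = true) : bt m id = true ∨ id = a := by
  rw [bt_iff] at h ⊢
  have h' : Nat.testBit (m ||| 2 ^ a) id = true := h
  rw [Nat.testBit_or, Bool.or_eq_true] at h'
  rcases h' with h' | h'
  · exact Or.inl h'
  · rw [Nat.testBit_two_pow, decide_eq_true_eq] at h'
    exact Or.inr h'.symm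

theorem msk_base {x : ℕ → ℝ} {c : ℕ → ℕ} (hF : Fct x c) : Msk x c 1125899906842623 := by
  intro id h
  have h50 : id < 50 := by
    by_contra hn
    have h2 : (2 : ℕ) ^ 50 ≤ 2 ^ id := Nat.pow_le_pow_right (by norm_num) (by omega)
    have h3 : 1125899906842623 / 2 ^ id = 0 := Nat.div_eq_of_lt (by omega)
    have h4 : 1125899906842623 / 2 ^ id % 2 = 1 := Nat.eq_of_beq_eq_true h
    rw [h3] at h4
    norm_num at h4
  exact ⟨by omega, row_base hF id h50, fun h5 => by omega⟩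

theorem msk_T {x : ℕ → ℝ} {c : ℕ → ℕ} (hF : Fct x c) {m : ℕ} (hm : Msk x c m) (k i : ℕ) (hk : k < 10) (hi : c k = i) :
    Msk x c (Nat.lor m (Nat.pow 2 (50 + 3 * k + i))) := by
  intro id h
  have hi3 : i < 3 := by rw [← hi]; exact hF.lt k hk
  rcases bt_or _ _ _ h with h | h
  · exact hm id h
  · obtain ⟨e1, e2⟩ := row_T x k i hk hi3
    rw [h]
    refine ⟨by omega, ?_, fun _ _ => ?_⟩
    · rw [e1, e2, ← hi]
      exact_mod_cast hF.cov k hk
    · rw [show (50 + 3 * k + i - 50) / 3 = k by omega, show (50 + 3 * k + i - 50) % 3 = i by omega, hi]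

theorem msk_C {x : ℕ → ℝ} {c : ℕ → ℕ} {m : ℕ} (hm : Msk x c m) (k a b : ℕ) (hk : k < 5) (ha : a < 3) (hb : b < 3)
    (h0 : 0 ≤ x (10 * a + k) + x (10 * b + k + 5)) :
    Msk x c (Nat.lor m (Nat.pow 2 (80 + 9 * k + 3 * a + b))) := by
  intro id h
  rcases bt_or _ _ _ h with h | h
  · exact hm id h
  · obtain ⟨e1, e2⟩ := row_C x k a b hk ha hb
    rw [h]
    refine ⟨by omega, ?_, fun _ h80 => by omega⟩
    rw [e1, e2]
    exact_mod_cast h0

/-! ### The objective function -/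

theorem gg_eq (x : ℕ → ℝ) (i s : ℕ) : gg x i s = 2 * ((x (10 * i) + x (10 * i + 5)) + (x (10 * i + 1) + x (10 * i + 6)) +
    (x (10 * i + 2) + x (10 * i + 7)) + (x (10 * i + 3) + x (10 * i + 8)) + (x (10 * i + 4) + x (10 * i + 9))) -
    (1 + √5) * (x (10 * i + s) + x (10 * i + s + 5)) := by
  unfold gg
  simp only [Finset.sum_range_succ, Finset.sum_range_zero, zero_add, add_zero, add_assoc, Nat.reduceAdd]

theorem ev_ob (x : ℕ → ℝ) (i s : ℕ) (hs : s < 5) : ev x (ob i s) = gg x i s := by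
  rw [gg_eq]
  have hr : List.range 10 = [0, 1, 2, 3, 4, 5, 6, 7, 8, 9] := rfl
  unfold ob
  rw [if_pos hs, hr]
  simp only [ev, vl, List.map_cons, List.map_nil, List.sum_cons, List.sum_nil]
  interval_cases s <;> norm_num <;> ring

theorem ev_ob5 (x : ℕ → ℝ) (i : ℕ) : ev x (ob i 5) = (x (10 * i) + x (10 * i + 5)) + (x (10 * i + 1) + x (10 * i + 6)) +
    (x (10 * i + 2) + x (10 * i + 7)) + (x (10 * i + 3) + x (10 * i + 8)) + (x (10 * i + 4) + x (10 * i + 9)) := by
  have hr : List.range 10 = [0, 1, 2, 3, 4, 5, 6, 7, 8, 9] := rfl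
  unfold ob
  rw [if_neg (by norm_num), hr]
  simp only [ev, vl, List.map_cons, List.map_nil, List.sum_cons, List.sum_nil]
  push_cast
  ring

theorem wl (w0 w1 w2 w3 w4 : ℝ) (I0 : 0 ≤ 2 * w4 + 2 * w1 - (1 + √5) * w0) (I1 : 0 ≤ 2 * w0 + 2 * w2 - (1 + √5) * w1)
    (I4 : 0 ≤ 2 * w3 + 2 * w0 - (1 + √5) * w4) : (1 + √5) * w0 ≤ w0 + w1 + w2 + w3 + w4 := by
  have h5 := h55
  have h0 : 0 ≤ √5 := Real.sqrt_nonneg 5
  have e := mul_nonneg (show 0 ≤ 1 / 2 + (1 + √5) / 4 by positivity) I0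
  have e2 : w0 + w1 + w2 + w3 + w4 - (1 + √5) * w0 = (1 / 2 + (1 + √5) / 4) * (2 * w4 + 2 * w1 - (1 + √5) * w0) +
      1 / 2 * ((2 * w0 + 2 * w2 - (1 + √5) * w1) + (2 * w3 + 2 * w0 - (1 + √5) * w4)) := by
    linear_combination (w0 / 4) * h5
  linarith

theorem ob5_le {x : ℕ → ℝ} {c : ℕ → ℕ} (hF : Fct x c) (i r : ℕ) (hi : i < 3) (hr : r < 5) :
    ev x (ob i 5) ≤ gg x i r := by
  rw [ev_ob5, gg_eq]
  have C0 := hF.conv i hi 0 (by norm_num)
  have C1 := hF.conv i hi 1 (by norm_num)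
  have C2 := hF.conv i hi 2 (by norm_num)
  have C3 := hF.conv i hi 3 (by norm_num)
  have C4 := hF.conv i hi 4 (by norm_num)
  have C5 := hF.conv i hi 5 (by norm_num)
  have C6 := hF.conv i hi 6 (by norm_num)
  have C7 := hF.conv i hi 7 (by norm_num)
  have C8 := hF.conv i hi 8 (by norm_num)
  have C9 := hF.conv i hi 9 (by norm_num)
  norm_num at C0 C1 C2 C3 C4 C5 C6 C7 C8 C9
  have J0 : 0 ≤ 2 * (x (10 * i + 4) + x (10 * i + 9)) + 2 * (x (10 * i + 1) + x (10 * i + 6)) -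
    (1 + √5) * (x (10 * i) + x (10 * i + 5)) := by linarith
  have J1 : 0 ≤ 2 * (x (10 * i) + x (10 * i + 5)) + 2 * (x (10 * i + 2) + x (10 * i + 7)) -
    (1 + √5) * (x (10 * i + 1) + x (10 * i + 6)) := by linarith
  have J2 : 0 ≤ 2 * (x (10 * i + 1) + x (10 * i + 6)) + 2 * (x (10 * i + 3) + x (10 * i + 8)) -
    (1 + √5) * (x (10 * i + 2) + x (10 * i + 7)) := by linarith
  have J3 : 0 ≤ 2 * (x (10 * i + 2) + x (10 * i + 7)) + 2 * (x (10 * i + 4) + x (10 * i + 9)) -
    (1 + √5) * (x (10 * i + 3) + x (10 * i + 8)) := by linarith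
  have J4 : 0 ≤ 2 * (x (10 * i + 3) + x (10 * i + 8)) + 2 * (x (10 * i) + x (10 * i + 5)) -
    (1 + √5) * (x (10 * i + 4) + x (10 * i + 9)) := by linarith
  interval_cases r
  · have := wl _ _ _ _ _ J0 J1 J4
    simp only [add_zero]
    linarith
  · have := wl _ _ _ _ _ J1 J2 J0
    simp only [add_assoc, Nat.reduceAdd] at *
    linarith
  · have := wl _ _ _ _ _ J2 J3 J1
    simp only [add_assoc, Nat.reduceAdd] at *
    linarith
  · have := wl _ _ _ _ _ J3 J4 J2
    simp only [add_assoc, Nat.reduceAdd] at *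
    linarith
  · have := wl _ _ _ _ _ J4 J0 J3
    simp only [add_assoc, Nat.reduceAdd] at *
    linarith

theorem ob_le {x : ℕ → ℝ} {c : ℕ → ℕ} (hF : Fct x c) (i s r : ℕ) (hi : i < 3) (hr : r < 5) (h : s = 5 ∨ s = r) :
    ev x (ob i s) ≤ gg x i r := by
  rcases h with rfl | rfl
  · exact ob5_le hF i r hi hr
  · exact (ev_ob x i s hr).le

/-! ### Trees -/

theorem check_sound {x : ℕ → ℝ} {c : ℕ → ℕ} (hF : Fct x c) : ∀ (t : Tr) (s1 s2 r1 r2 m : ℕ), r1 < 5 → r2 < 5 →
    (s1 = 5 ∨ s1 = r1) → (s2 = 5 ∨ s2 = r2) → Msk x c m → check t s1 s2 m = true →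
    47 / 4 ≤ gg x 0 0 + gg x 1 r1 + gg x 2 r2 := by
  intro t
  induction t with
  | leaf D u v len N =>
    intro s1 s2 r1 r2 m h1 h2 a1 a2 hm h
    have k := leaf_sound s1 s2 m (by omega) (by omega) hm D u v len N h
    have k0 := ob_le hF 0 0 0 (by norm_num) (by norm_num) (Or.inr rfl)
    have k1 := ob_le hF 1 s1 r1 (by norm_num) h1 a1
    have k2 := ob_le hF 2 s2 r2 (by norm_num) h2 a2
    linarith
  | cn k t0 t1 t2 i0 i1 i2 =>
    intro s1 s2 r1 r2 m h1 h2 a1 a2 hm h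
    simp only [check, Bool.and_eq_true] at h
    obtain ⟨hk, g0, g1, g2⟩ := h
    have hk := Nat.le_of_ble_eq_true hk
    have hk10 : k < 10 := by omega
    have h3 := hF.lt k hk10
    have hc : c k = 0 ∨ c k = 1 ∨ c k = 2 := by omega
    rcases hc with hc | hc | hc
    · exact i0 s1 s2 r1 r2 _ h1 h2 a1 a2 (msk_T hF hm k 0 hk10 hc) g0
    · refine i1 s1 s2 r1 r2 _ h1 h2 a1 a2 (msk_T hF hm k 1 hk10 hc) ?_
      rw [show 50 + 3 * k + 1 = 51 + 3 * k by omega]; exact g1
    · refine i2 s1 s2 r1 r2 _ h1 h2 a1 a2 (msk_T hF hm k 2 hk10 hc) ?_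
      rw [show 50 + 3 * k + 2 = 52 + 3 * k by omega]; exact g2
  | bn k i j t0 t1 i0 i1 =>
    intro s1 s2 r1 r2 m h1 h2 a1 a2 hm h
    simp only [check, Bool.and_eq_true] at h
    obtain ⟨⟨⟨hk, hi⟩, hj, hij⟩, ⟨b1, b2⟩, g0, g1⟩ := h
    have hk := Nat.le_of_ble_eq_true hk
    have hi := Nat.le_of_ble_eq_true hi
    have hj := Nat.le_of_ble_eq_true hj
    have hij : i ≠ j := by
      intro e
      rw [e] at hij
      simp at hij
    have e1 := (hm _ b1).2.2 (by omega) (by omega)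
    rw [show (50 + 3 * k + i - 50) / 3 = k by omega, show (50 + 3 * k + i - 50) % 3 = i by omega] at e1
    have e2 := (hm _ b2).2.2 (by omega) (by omega)
    rw [show (65 + 3 * k + j - 50) / 3 = k + 5 by omega, show (65 + 3 * k + j - 50) % 3 = j by omega] at e2
    have ho := hF.ovl k (by omega) (by rw [e1, e2]; exact hij)
    rw [e1, e2] at ho
    rcases ho with ho | ⟨ho, ho'⟩
    · exact i0 s1 s2 r1 r2 _ h1 h2 a1 a2 (msk_C hm k j i (by omega) (by omega) (by omega) ho) g0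
    · have e3 : 3 - i - j = 3 - i - j := rfl
      exact i1 s1 s2 r1 r2 _ h1 h2 a1 a2 (msk_C (msk_C hm k j (3 - i - j) (by omega) (by omega) (by omega) ho)
        k (3 - i - j) i (by omega) (by omega) (by omega) ho') g1
  | sn i t0 t1 t2 t3 t4 i0 i1 i2 i3 i4 =>
    intro s1 s2 r1 r2 m h1 h2 a1 a2 hm h
    rw [check] at h
    cases hb : Nat.beq i 1
    · rw [hb] at h
      simp only [cond_false, Bool.and_eq_true] at h
      obtain ⟨g0, g1, g2, g3, g4⟩ := h
      have hr : r2 = 0 ∨ r2 = 1 ∨ r2 = 2 ∨ r2 = 3 ∨ r2 = 4 := by omega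
      rcases hr with hr | hr | hr | hr | hr
      · exact i0 s1 0 r1 r2 _ h1 h2 a1 (Or.inr hr.symm) hm g0
      · exact i1 s1 1 r1 r2 _ h1 h2 a1 (Or.inr hr.symm) hm g1
      · exact i2 s1 2 r1 r2 _ h1 h2 a1 (Or.inr hr.symm) hm g2
      · exact i3 s1 3 r1 r2 _ h1 h2 a1 (Or.inr hr.symm) hm g3
      · exact i4 s1 4 r1 r2 _ h1 h2 a1 (Or.inr hr.symm) hm g4
    · rw [hb] at h
      simp only [cond_true, Bool.and_eq_true] at h
      obtain ⟨g0, g1, g2, g3, g4⟩ := h
      have hr : r1 = 0 ∨ r1 = 1 ∨ r1 = 2 ∨ r1 = 3 ∨ r1 = 4 := by omega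
      rcases hr with hr | hr | hr | hr | hr
      · exact i0 0 s2 r1 r2 _ h1 h2 (Or.inr hr.symm) a2 hm g0
      · exact i1 1 s2 r1 r2 _ h1 h2 (Or.inr hr.symm) a2 hm g1
      · exact i2 2 s2 r1 r2 _ h1 h2 (Or.inr hr.symm) a2 hm g2
      · exact i3 3 s2 r1 r2 _ h1 h2 (Or.inr hr.symm) a2 hm g3
      · exact i4 4 s2 r1 r2 _ h1 h2 (Or.inr hr.symm) a2 hm g4

end Pool.Agent.OT
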